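import Pool.Agent.Helper82.PN.GoalsR

/-!
Project PN (MP_6fb600_gt), packet PN-APX: approximation of a profile by sums of profiles of
truncated cones (helper25).
-/

open Set Finset

namespace Pool.Agent.Helper25.PN

open Pool.Agent.Helper82.PN

/-- The nodes. -/
noncomputable def nd (a δ : ℝ) (j : ℕ) : ℝ := a + δ * j

/-- The slopes, shifted by one. -/
noncomputable def slp (R : ℝ → ℝ) (a δ : ℝ) (j : ℕ) : ℝ :=
  if j = 0 then 0 else (R (nd a δ (j - 1)) - R (nd a δ j)) / δ

/-- The interpolating sum. -/
noncomputable def ip (R : ℝ → ℝ) (a δ : ℝ) (M : ℕ) (s : ℝ) : ℝ :=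
  ∑ j ∈ range M, (slp R a δ (j + 1) - slp R a δ j) * min (1 - nd a δ j) (1 - s)

lemma step (R : ℝ → ℝ) (a δ : ℝ) (hδ : 0 < δ) (M k : ℕ) (hk : k < M) :
    ip R a δ M (nd a δ k) - ip R a δ M (nd a δ (k + 1)) =
      R (nd a δ k) - R (nd a δ (k + 1)) := by
  unfold ip
  rw [← Finset.sum_sub_distrib]
  have h1 : ∀ j ∈ range M,
      (slp R a δ (j + 1) - slp R a δ j) * min (1 - nd a δ j) (1 - nd a δ k) -
        (slp R a δ (j + 1) - slp R a δ j) * min (1 - nd a δ j) (1 - nd a δ (k + 1)) =
      if j < k + 1 then (slp R a δ (j + 1) - slp R a δ j) * δ else 0 := by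
    intro j _
    by_cases hj : j < k + 1
    · rw [if_pos hj]
      have hjk : (j : ℝ) ≤ k := by exact_mod_cast (by omega : j ≤ k)
      have e1 : min (1 - nd a δ j) (1 - nd a δ k) = 1 - nd a δ k :=
        min_eq_right (by unfold nd; nlinarith)
      have e2 : min (1 - nd a δ j) (1 - nd a δ (k + 1)) = 1 - nd a δ (k + 1) :=
        min_eq_right (by unfold nd; push_cast; nlinarith)
      rw [e1, e2]
      unfold nd
      push_cast
      ring
    · rw [if_neg hj]
      have hjk : (k : ℝ) + 1 ≤ j := by exact_mod_cast (by omega : k + 1 ≤ j)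
      have e1 : min (1 - nd a δ j) (1 - nd a δ k) = 1 - nd a δ j :=
        min_eq_left (by unfold nd; nlinarith)
      have e2 : min (1 - nd a δ j) (1 - nd a δ (k + 1)) = 1 - nd a δ j :=
        min_eq_left (by unfold nd; push_cast; nlinarith)
      rw [e1, e2]
      ring
  rw [Finset.sum_congr rfl h1]
  have h2 : ∑ j ∈ range M, (if j < k + 1 then (slp R a δ (j + 1) - slp R a δ j) * δ else 0) =
      ∑ j ∈ range (k + 1), (slp R a δ (j + 1) - slp R a δ j) * δ := by
    symm
    rw [← Finset.sum_subset (s₁ := range (k + 1))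
      (f := fun j => if j < k + 1 then (slp R a δ (j + 1) - slp R a δ j) * δ else 0)]
    · refine Finset.sum_congr rfl fun j hj => ?_
      rw [if_pos (Finset.mem_range.1 hj)]
    · intro j hj
      rw [Finset.mem_range] at hj ⊢
      omega
    · intro j _ hj
      rw [Finset.mem_range] at hj
      rw [if_neg hj]
  rw [h2, ← Finset.sum_mul, Finset.sum_range_sub]
  have h3 : slp R a δ 0 = 0 := if_pos rfl
  have h4 : slp R a δ (k + 1) = (R (nd a δ k) - R (nd a δ (k + 1))) / δ := by
    unfold slp
    rw [if_neg (Nat.succ_ne_zero k), Nat.add_sub_cancel]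
  rw [h3, h4, sub_zero, div_mul_cancel₀ _ hδ.ne']

lemma ip_node (R : ℝ → ℝ) (a δ : ℝ) (hδ : 0 < δ) (M : ℕ) (hM : nd a δ M = 1) :
    ∀ i k, k + i = M → ip R a δ M (nd a δ k) + R 1 = R (nd a δ k) := by
  intro i
  induction i with
  | zero =>
    intro k hk
    rw [add_zero] at hk
    subst hk
    rw [hM]
    have : ip R a δ k 1 = 0 := by
      unfold ip
      refine Finset.sum_eq_zero fun j hj => ?_
      rw [Finset.mem_range] at hj
      have hjk : (j : ℝ) ≤ k := by exact_mod_cast hj.le
      have e1 : min (1 - nd a δ j) (1 - 1) = 0 := by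
        rw [sub_self]
        refine min_eq_right ?_
        rw [← hM]
        unfold nd
        nlinarith
      rw [e1, mul_zero]
    rw [this, zero_add]
  | succ i ih =>
    intro k hk
    have h1 := ih (k + 1) (by omega)
    have h2 := step R a δ hδ M k (by omega)
    linarith

theorem gAPX : APX := by
  intro R a hR ha0 ha1 hconst ε hε
  have huc := isCompact_Icc.uniformContinuousOn_of_continuous hR.cont
  rw [Metric.uniformContinuousOn_iff] at huc
  obtain ⟨η, hη, huc⟩ := huc ε hε
  obtain ⟨M, hM⟩ := exists_nat_gt ((1 - a) / η)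
  have h1a : 0 < 1 - a := by linarith
  have hMpos : (0 : ℝ) < M := lt_trans (div_pos h1a hη) hM
  have hM0 : 0 < M := by exact_mod_cast hMpos
  set δ : ℝ := (1 - a) / M with hδdef
  have hδ : 0 < δ := div_pos h1a hMpos
  have hδη : δ < η := by
    rw [hδdef, div_lt_iff₀ hMpos]
    rw [div_lt_iff₀ hη] at hM
    linarith
  have hδM : δ * M = 1 - a := by rw [hδdef]; field_simp
  have hndM : nd a δ M = 1 := by unfold nd; rw [hδM]; ring
  have hnd0 : nd a δ 0 = a := by unfold nd; simp
  have hmono : ∀ i j : ℕ, i ≤ j → nd a δ i ≤ nd a δ j := by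
    intro i j hij
    have : (i : ℝ) ≤ j := by exact_mod_cast hij
    unfold nd
    nlinarith
  have hnda : ∀ j : ℕ, a ≤ nd a δ j := fun j => by
    have := hmono 0 j (Nat.zero_le _)
    rwa [hnd0] at this
  have hnd1 : ∀ j : ℕ, j ≤ M → nd a δ j ≤ 1 := fun j hj => by
    have := hmono j M hj
    rwa [hndM] at this
  have hndI : ∀ j : ℕ, j ≤ M → nd a δ j ∈ Icc (0 : ℝ) 1 := fun j hj =>
    ⟨ha0.trans (hnda j), hnd1 j hj⟩
  have hndlt : ∀ j : ℕ, j < M → nd a δ j < 1 := by
    intro j hj
    have : (j : ℝ) < M := by exact_mod_cast hj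
    rw [← hndM]
    unfold nd
    nlinarith
  -- the differences of the slopes are nonnegative
  have hd : ∀ j : ℕ, j < M → 0 ≤ slp R a δ (j + 1) - slp R a δ j := by
    intro j hj
    have e1 : slp R a δ (j + 1) = (R (nd a δ j) - R (nd a δ (j + 1))) / δ := by
      unfold slp
      rw [if_neg (Nat.succ_ne_zero j), Nat.add_sub_cancel]
    rcases Nat.eq_zero_or_pos j with rfl | hj0
    · have e0 : slp R a δ 0 = 0 := if_pos rfl
      rw [e0, e1, sub_zero]
      refine div_nonneg ?_ hδ.le
      have := hR.anti (hndI 0 (by omega)) (hndI 1 (by omega)) (hmono 0 1 (by omega))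
      simpa using this
    · have e0 : slp R a δ j = (R (nd a δ (j - 1)) - R (nd a δ j)) / δ := by
        unfold slp
        rw [if_neg (by omega)]
      rw [e0, e1, ← sub_div]
      refine div_nonneg ?_ hδ.le
      have hc := hR.conc.2 (hndI (j - 1) (by omega)) (hndI (j + 1) (by omega))
        (by norm_num : (0 : ℝ) ≤ 1 / 2) (by norm_num : (0 : ℝ) ≤ 1 / 2) (by norm_num)
      have e3 : (1 / 2 : ℝ) • nd a δ (j - 1) + (1 / 2 : ℝ) • nd a δ (j + 1) = nd a δ j := by
        unfold nd
        rw [Nat.cast_sub hj0]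
        simp only [smul_eq_mul]
        push_cast
        ring
      rw [e3] at hc
      simp only [smul_eq_mul] at hc
      linarith
  have hanti : Antitone (ip R a δ M) := by
    intro s s' hss
    unfold ip
    refine Finset.sum_le_sum fun j hj => ?_
    refine mul_le_mul_of_nonneg_left ?_ (hd j (Finset.mem_range.1 hj))
    exact min_le_min le_rfl (by linarith)
  have hnode : ∀ k, k ≤ M → ip R a δ M (nd a δ k) + R 1 = R (nd a δ k) := fun k hk =>
    ip_node R a δ hδ M hndM (M - k) k (by omega)
  refine ⟨M + 1, nd a δ, fun j => if j < M then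
    (1 - nd a δ j) * (slp R a δ (j + 1) - slp R a δ j) else R 1, ?_, ?_⟩
  · intro j hj
    refine ⟨hnda j, hnd1 j (by omega), ?_⟩
    dsimp only
    split_ifs with h
    · exact mul_nonneg (by linarith [hnd1 j h.le]) (hd j h)
    · exact hR.nonneg 1 ⟨zero_le_one, le_rfl⟩
  · intro s hs
    have hsum : ∑ j ∈ Finset.range (M + 1), (if j < M then
        (1 - nd a δ j) * (slp R a δ (j + 1) - slp R a δ j) else R 1) * tp (nd a δ j) s =
        ip R a δ M s + R 1 := by
      rw [Finset.sum_range_succ, if_neg (lt_irrefl M), hndM]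
      have e1 : tp 1 s = 1 := if_neg (lt_irrefl 1)
      rw [e1, mul_one]
      congr 1
      unfold ip
      refine Finset.sum_congr rfl fun j hj => ?_
      have hj' := Finset.mem_range.1 hj
      have hlt := hndlt j hj'
      have hpos : 0 < 1 - nd a δ j := by linarith
      rw [if_pos hj']
      have e2 : tp (nd a δ j) s = min 1 ((1 - s) / (1 - nd a δ j)) := if_pos hlt
      have e3 : (1 - nd a δ j) * tp (nd a δ j) s = min (1 - nd a δ j) (1 - s) := by
        rw [e2, mul_min_of_nonneg _ _ hpos.le, mul_one, mul_div_cancel₀ _ hpos.ne']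
      rw [← e3]
      ring
    rw [hsum]
    rcases le_or_gt s a with hsa | hsa
    · have e1 : ip R a δ M s = ip R a δ M (nd a δ 0) := by
        unfold ip
        refine Finset.sum_congr rfl fun j hj => ?_
        rw [hnd0]
        have := hnda j
        rw [min_eq_left (by linarith), min_eq_left (by linarith)]
      have e2 := hnode 0 (Nat.zero_le _)
      rw [e1, e2, hnd0, hconst s ⟨hs.1, hsa⟩, sub_self, abs_zero]
      exact hε.le
    · set m := ⌈(s - a) / δ⌉₊ with hm
      have hq : 0 < (s - a) / δ := div_pos (by linarith) hδ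
      have hm1 : 0 < m := Nat.ceil_pos.2 hq
      have hmM : m ≤ M := by
        refine Nat.ceil_le.2 ?_
        rw [div_le_iff₀ hδ]
        have := hs.2
        nlinarith
      have hle : (s - a) / δ ≤ m := Nat.le_ceil _
      have hlt : ((m : ℝ) - 1) < (s - a) / δ := by
        have := Nat.ceil_lt_add_one hq.le
        rw [← hm] at this
        linarith
      obtain ⟨k, hk⟩ : ∃ k, m = k + 1 := ⟨m - 1, by omega⟩
      have hkM : k < M := by omega
      have hcast : (m : ℝ) = k + 1 := by rw [hk]; push_cast; ring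
      rw [hcast] at hle hlt
      have h1 : nd a δ k ≤ s := by
        have h : (k : ℝ) < (s - a) / δ := by linarith
        rw [lt_div_iff₀ hδ] at h
        unfold nd
        linarith
      have h2 : s ≤ nd a δ (k + 1) := by
        rw [div_le_iff₀ hδ] at hle
        unfold nd
        push_cast
        linarith
      have i1 := hndI k hkM.le
      have i2 := hndI (k + 1) (by omega)
      have a1 := hR.anti i1 hs h1
      have a2 := hR.anti hs i2 h2
      have b1 := hanti h1
      have b2 := hanti h2
      have n1 := hnode k hkM.le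
      have n2 := hnode (k + 1) (by omega)
      have hdist : dist (nd a δ k) (nd a δ (k + 1)) < η := by
        rw [dist_comm, Real.dist_eq]
        have : nd a δ (k + 1) - nd a δ k = δ := by unfold nd; push_cast; ring
        rw [this, abs_of_pos hδ]
        exact hδη
      have h3 := huc _ i1 _ i2 hdist
      rw [Real.dist_eq] at h3
      have h4 := (abs_lt.1 h3).2
      rw [abs_le]
      constructor <;> linarith

end Pool.Agent.Helper25.PN
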